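import Pool.Agent.RC.V3

set_option autoImplicit false
open Real MeasureTheory

namespace Pool.Agent.Results.MP_8d28ad_mp.RadialSharp

/-- The sharp Cwikel-Lieb-Rozenblum constant for radial potentials in dimension three: the least `C` such
that, for every measurable radial `W ≥ 0` on `ℝ³` with `W^{3/2}` integrable, the quadratic form of `-Δ - W` is
negative (on all nonzero elements) only on spaces of smooth compactly supported functions of dimension
`n ≤ C ∫ W^{3/2}`, equals `(3π)^{-3/2} Γ(3)/Γ(3/2) ≈ 0.0780`. -/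
theorem result :
    IsLeast
      {C : ℝ | ∀ W : EuclideanSpace ℝ (Fin 3) → ℝ, Measurable W → (∀ x, 0 ≤ W x) →
        (∀ x y, ‖x‖ = ‖y‖ → W x = W y) →
        Integrable (fun x => W x ^ (3 / 2 : ℝ)) →
        ∀ (n : ℕ) (u : Fin n → EuclideanSpace ℝ (Fin 3) → ℝ),
          (∀ i, ContDiff ℝ (⊤ : ℕ∞) (u i) ∧ HasCompactSupport (u i)) →
          (∀ c : Fin n → ℝ, c ≠ 0 →
            ∫ x, (‖fderiv ℝ (fun y => ∑ i, c i * u i y) x‖ ^ 2
                  - W x * (∑ i, c i * u i x) ^ 2) < 0) →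
          (n : ℝ) ≤ C * ∫ x, W x ^ (3 / 2 : ℝ)}
      ((3 * π) ^ (-(3 / 2 : ℝ)) * Real.Gamma 3 / Real.Gamma (3 / 2)) :=
  Pool.Agent.RC.final

end Pool.Agent.Results.MP_8d28ad_mp.RadialSharp
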