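import Pool.Agent.CLR.Final

set_option autoImplicit false
open MeasureTheory

namespace Pool.Agent.Results.MP_8d28ad_mp.UpperBound

/-- `L_3 ≤ 0.112`: if the quadratic form of `-Δ - W` on `ℝ³` (`W ≥ 0` measurable, `W^{3/2}` integrable) is
negative on every nonzero element of an `n`-dimensional space of smooth compactly supported functions,
then `n ≤ 0.112 ∫ W^{3/2}`. -/
theorem result :
    ∀ W : EuclideanSpace ℝ (Fin 3) → ℝ, Measurable W → (∀ x, 0 ≤ W x) →
      Integrable (fun x => W x ^ (3 / 2 : ℝ)) →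
      ∀ (n : ℕ) (u : Fin n → EuclideanSpace ℝ (Fin 3) → ℝ),
        (∀ i, ContDiff ℝ (⊤ : ℕ∞) (u i) ∧ HasCompactSupport (u i)) →
        (∀ c : Fin n → ℝ, c ≠ 0 →
          ∫ x, (‖fderiv ℝ (fun y => ∑ i, c i * u i y) x‖ ^ 2
                - W x * (∑ i, c i * u i x) ^ 2) < 0) →
        (n : ℝ) ≤ 0.112 * ∫ x, W x ^ (3 / 2 : ℝ) := by
  intro W hW hW0 hWi n u hu hneg
  exact CLR.clr3 W hW hW0 hWi n u hu hneg

end Pool.Agent.Results.MP_8d28ad_mp.UpperBound
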