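import Pool.Agent.WEL.Main

set_option autoImplicit false
open MeasureTheory

namespace Pool.Agent.Results.MP_8d28ad_mp.Wells

/-- Bounded potentials: if `0 ≤ W ≤ lam` is integrable on `ℝ³` and the quadratic form of `-Δ - W` is negative on
every nonzero element of an `n`-dimensional space of smooth compactly supported functions, then
`n ≤ 0.0777 √lam ∫ W`; the constant `0.0777` is smaller than the conjectured sharp constant
`(3π)^{-3/2} Γ(3)/Γ(3/2)` of the Cwikel-Lieb-Rozenblum inequality (for potential wells `W = lam 1_Ω` one has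
`√lam ∫ W = ∫ W^{3/2}`). -/
theorem result :
    (∀ (W : EuclideanSpace ℝ (Fin 3) → ℝ) (lam : ℝ), Measurable W → (∀ x, 0 ≤ W x ∧ W x ≤ lam) →
      Integrable W →
      ∀ (n : ℕ) (u : Fin n → EuclideanSpace ℝ (Fin 3) → ℝ),
        (∀ i, ContDiff ℝ (⊤ : ℕ∞) (u i) ∧ HasCompactSupport (u i)) →
        (∀ c : Fin n → ℝ, c ≠ 0 →
          ∫ x, (‖fderiv ℝ (fun y => ∑ i, c i * u i y) x‖ ^ 2
                - W x * (∑ i, c i * u i x) ^ 2) < 0) →
        (n : ℝ) ≤ 0.0777 * Real.sqrt lam * ∫ x, W x) ∧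
    (0.0777 : ℝ) < (3 * Real.pi) ^ (-(3 / 2) : ℝ) * Real.Gamma 3 / Real.Gamma (3 / 2) := by
  refine ⟨?_, WEL.const_lt⟩
  intro W lam hW hW01 hWi n u hu hneg
  exact WEL.wells W lam hW hW01 hWi n u hu hneg

end Pool.Agent.Results.MP_8d28ad_mp.Wells
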